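import Pool.Agent.H.MP_4a8797_al.C

set_option autoImplicit false

namespace Pool.Agent.Results.MP_4a8797_al.No

open Pool.Agent.H.MP_4a8797_al

/-- varieties of pro-p groups -/
structure IsVariety (p : ℕ) (V : (G : Type) → [Group G] → [TopologicalSpace G] → Prop) : Prop where
  pro : ∀ (G : Type) [Group G] [TopologicalSpace G], V G →
    IsTopologicalGroup G ∧ CompactSpace G ∧ TotallyDisconnectedSpace G ∧ T2Space G ∧
      ∀ N : Subgroup G, IsOpen (N : Set G) → N.Normal → ∃ k : ℕ, N.index = p ^ k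
  iso : ∀ (G H : Type) [Group G] [TopologicalSpace G] [Group H] [TopologicalSpace H],
    Nonempty (G ≃ₜ* H) → V G → V H
  sub : ∀ (G : Type) [Group G] [TopologicalSpace G], V G →
    ∀ H : Subgroup G, IsClosed (H : Set G) → V H
  quot : ∀ (G : Type) [Group G] [TopologicalSpace G], V G →
    ∀ (N : Subgroup G) [N.Normal], IsClosed (N : Set G) → V (G ⧸ N)
  prod : ∀ (I : Type) (H : I → Type) [∀ i, Group (H i)] [∀ i, TopologicalSpace (H i)],
    (∀ i, V (H i)) → V ((i : I) → H i)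

theorem result : ∃ V : (G : Type) → [Group G] → [TopologicalSpace G] → Prop, IsVariety 2 V ∧
    ∃ (F : Type) (_ : Group F) (_ : TopologicalSpace F) (x : Fin 2 → F), V F ∧
      (∀ (G : Type) [Group G] [TopologicalSpace G], V G → ∀ a : Fin 2 → G,
        ∃! f : F →ₜ* G, ∀ i, f (x i) = a i) ∧
      ∀ N : ℕ, ∃ g : F, IsOfFinOrder g ∧ N < orderOf g := by
  obtain ⟨LL, _, p2l, lawL, nonL⟩ : ∃ (L : ℕ → Type) (_ : ∀ j, Group (L j)), (∀ j, P2 (L j)) ∧
      (∀ {j k : ℕ} (_ : k < j) (a b : L j), uu (k + 2) a b = 1) ∧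
      ∀ j, ∃ a b : L j, ∀ N, uu (j + 2) a b ^ N = 1 → 2 ^ j ∣ 2 * N :=
    ⟨LL, inferInstance, p2l, lawL, nonL⟩
  let _ : ∀ j, TopologicalSpace (LL j) := fun _ => ⊥
  have : ∀ j, DiscreteTopology (LL j) := fun _ => ⟨rfl⟩
  have : ∀ j, Finite (LL j) := fun j => (p2l j).fin
  refine ⟨fun G _ _ => IsTopologicalGroup G ∧ CompactSpace G ∧ TotallyDisconnectedSpace G ∧
      T2Space G ∧ ∀ a : Fin 2 → G, ∃ f : FF LL →* G, Continuous f ∧ ∀ t, f (xx LL t) = a t,
    ⟨fun G _ _ ⟨h1, h2, h3, h4, h⟩ => ⟨h1, h2, h3, h4, fun N hN _ => idx p2l h N hN⟩,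
      fun G H _ _ _ _ ⟨e⟩ ⟨h1, h2, h3, h4, h⟩ => ⟨?_, e.toHomeomorph.compactSpace,
        e.toHomeomorph.totallyDisconnectedSpace, e.toHomeomorph.t2Space, fun a => ?_⟩,
      fun G _ _ ⟨h1, h2, h3, h4, h⟩ H hH => ⟨inferInstance,
        isCompact_iff_compactSpace.1 hH.isCompact, inferInstance, inferInstance, fun a => ?_⟩,
      fun G _ _ ⟨h1, h2, h3, h4, h⟩ N _ hN => ⟨inferInstance, inferInstance, quot_td N hN,
        inferInstance, fun a => ?_⟩, fun I H _ _ h => ?_⟩,
    FF LL, inferInstance, inferInstance, xx LL,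
    ⟨inferInstance, inferInstance, inferInstance, inferInstance, endo⟩,
    fun G _ _ ⟨h1, h2, h3, h4, h⟩ a => ?_, tors lawL nonL⟩
  · exact e.symm.toHomeomorph.isInducing.topologicalGroup e.symm.toMulEquiv
  · obtain ⟨f, hf, k⟩ := h fun t => e.symm (a t)
    exact ⟨e.toMulEquiv.toMonoidHom.comp f, e.continuous.comp hf,
      fun t => (congrArg e (k t)).trans (e.apply_symm_apply _)⟩
  · obtain ⟨f, hf, k⟩ := h fun t => a t
    exact ⟨f.codRestrict H (mem_of f hf H hH fun t => k t ▸ (a t).2), hf.subtype_mk _,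
      fun t => Subtype.ext (k t)⟩
  · choose b hb using fun t => QuotientGroup.mk_surjective (a t)
    obtain ⟨f, hf, k⟩ := h b
    exact ⟨(QuotientGroup.mk' N).comp f, QuotientGroup.continuous_mk.comp hf,
      fun t => by simp [k, hb]⟩
  · have := fun i => (h i).1
    have := fun i => (h i).2.1
    have := fun i => (h i).2.2.1
    have := fun i => (h i).2.2.2.1
    refine ⟨inferInstance, inferInstance, inferInstance, inferInstance, fun a => ?_⟩
    choose f hf k using fun i => (h i).2.2.2.2 fun t => a t i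
    exact ⟨MonoidHom.pi f, continuous_pi hf, fun t => funext fun i => k i t⟩
  · obtain ⟨f, hf, k⟩ := h a
    exact ⟨⟨f, hf⟩, k, fun g hg => uniq _ _ fun t => (hg t).trans (k t).symm⟩

end Pool.Agent.Results.MP_4a8797_al.No
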